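import Pool.Agent.Helper66_ML.Stmts2
import Pool.Agent.Helper66_DF.AsmDF

/-!
# Squad ML, stage 2, module MN2: from `O_ℓ(G) = 1` to a central `O_ℓ(G)`
-/

open scoped BigOperators

set_option linter.unusedSectionVars false

noncomputable section

namespace Pool.Agent.PP.ML.H9

open Pool.Agent.Helper51_AWC Pool.Agent.Helper79_WRA Pool.Agent.PP Pool.Agent.Helper98_CC

section grp

variable {A B : Type} [Group A] [Group B] [Finite A] [Finite B]

/-- if no nontrivial element `u` of the kernel satisfies `x u ∼ x`, two conjugates of `x` with the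
same image are equal -/
theorem lift_unique {p : A →* B} {x : A}
    (hx : ∀ u ∈ p.ker, (∃ w : A, w * x * w⁻¹ = x * u) → u = 1) {y z : A}
    (h : p (y * x * y⁻¹) = p (z * x * z⁻¹)) : y * x * y⁻¹ = z * x * z⁻¹ := by
  set w := z⁻¹ * y with hw
  set u := x⁻¹ * (w * x * w⁻¹) with hu
  have hwx : w * x * w⁻¹ = x * u := by rw [hu, mul_inv_cancel_left]
  have hpw : p w * p x * (p w)⁻¹ = p x := by
    have h1 : p w * p x * (p w)⁻¹ = (p z)⁻¹ * p (y * x * y⁻¹) * p z := by
      rw [hw]
      simp only [map_mul, map_inv]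
      group
    rw [h1, h]
    simp only [map_mul, map_inv]
    group
  have huk : u ∈ p.ker := by
    rw [MonoidHom.mem_ker, hu]
    simp only [map_mul, map_inv]
    rw [hpw, inv_mul_cancel]
  have hu1 : u = 1 := hx u huk ⟨w, hwx⟩
  rw [hu1, mul_one] at hwx
  calc y * x * y⁻¹ = z * (w * x * w⁻¹) * z⁻¹ := by rw [hw]; group
    _ = z * x * z⁻¹ := by rw [hwx]

/-- the image of a class sum -/
theorem push_clsum {F : Type} [Field F] {p : A →* B}
    (hp : Function.Surjective p) {x : A}
    (hx : ∀ u ∈ p.ker, (∃ w : A, w * x * w⁻¹ = x * u) → u = 1) :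
    H75.push p (clsum F ⊤ x) = clsum F ⊤ (p x) := by
  classical
  have := Fintype.ofFinite A
  funext y
  rw [H75.push_eq]
  by_cases h : ∃ q ∈ (⊤ : Subgroup B), y = q * p x * q⁻¹
  · obtain ⟨q, _, rfl⟩ := h
    obtain ⟨g, rfl⟩ := hp q
    rw [Finset.sum_eq_single (g * x * g⁻¹)]
    · rw [if_pos (by rw [map_mul, map_mul, map_inv]), clsum, clsum, if_pos, if_pos]
      · exact ⟨p g, Subgroup.mem_top _, rfl⟩
      · exact ⟨g, Subgroup.mem_top _, rfl⟩
    · intro z _ hz
      by_cases h1 : p z = p g * p x * (p g)⁻¹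
      · rw [if_pos h1, clsum, if_neg]
        rintro ⟨r, _, rfl⟩
        apply hz
        apply lift_unique hx
        rw [h1, map_mul, map_mul, map_inv]
      · rw [if_neg h1]
    · intro h'
      exact absurd (Finset.mem_univ _) h'
  · rw [clsum, if_neg h]
    apply Finset.sum_eq_zero
    intro z _
    by_cases h1 : p z = y
    · rw [if_pos h1, clsum, if_neg]
      rintro ⟨r, _, rfl⟩
      apply h
      refine ⟨p r, Subgroup.mem_top _, ?_⟩
      rw [← h1, map_mul, map_mul, map_inv]
    · rw [if_neg h1]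

/-- the image of a class sum vanishes if `x ∼ x u` for a nontrivial central `ℓ`-element of the
kernel -/
theorem push_zero {F : Type} [Field F] {ℓ : ℕ} (hF : GoodF ℓ F) {p : A →* B}
    (hk : IsPGroup ℓ p.ker) (hc : p.ker ≤ Subgroup.center A) {x u : A} (hu : u ∈ p.ker)
    (hu1 : u ≠ 1) {w : A} (hw : w * x * w⁻¹ = x * u) : H75.push p (clsum F ⊤ x) = 0 := by
  classical
  funext y
  have huz : ∀ g, g * u = u * g := fun g => Subgroup.mem_center_iff.1 (hc hu) g
  let R : Subgroup A := Subgroup.zpowers u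
  have hR : IsPGroup ℓ R := by
    have h1 : R ≤ p.ker := by
      rw [Subgroup.zpowers_le]
      exact hu
    exact hk.to_le h1
  -- invariance under multiplication by `u`
  have hinv : ∀ t : A, clsum F ⊤ x (u * t) = clsum F ⊤ x t := by
    intro t
    have hi : (∃ q ∈ (⊤ : Subgroup A), u * t = q * x * q⁻¹) ↔
        ∃ q ∈ (⊤ : Subgroup A), t = q * x * q⁻¹ := by
      constructor
      · rintro ⟨q, _, hq⟩
        refine ⟨q * w⁻¹, Subgroup.mem_top _, ?_⟩
        have h2 : w⁻¹ * x * w = x * u⁻¹ := by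
          have h3 : x = w⁻¹ * (x * u) * w := by rw [← hw]; group
          have h4 : w⁻¹ * (x * u) * w = w⁻¹ * x * w * u := by
            rw [mul_assoc w⁻¹ x w, mul_assoc w⁻¹ (x * w) u, mul_assoc x w u, huz w]
            group
          rw [h4] at h3
          rw [eq_mul_inv_iff_mul_eq]
          exact h3.symm
        have h5 : q * w⁻¹ * x * (q * w⁻¹)⁻¹ = q * (w⁻¹ * x * w) * q⁻¹ := by group
        rw [h5, h2]
        have h6 : q * (x * u⁻¹) * q⁻¹ = u⁻¹ * (q * x * q⁻¹) := by
          have h7 : ∀ g, g * u⁻¹ = u⁻¹ * g := fun g =>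
            Subgroup.mem_center_iff.1 (Subgroup.inv_mem _ (hc hu)) g
          rw [← mul_assoc, h7 (q * x)]
          group
        rw [h6, ← hq, inv_mul_cancel_left]
      · rintro ⟨q, _, hq⟩
        refine ⟨q * w, Subgroup.mem_top _, ?_⟩
        have h5 : q * w * x * (q * w)⁻¹ = q * (w * x * w⁻¹) * q⁻¹ := by group
        rw [h5, hw, hq, ← mul_assoc q x u, huz (q * x)]
        group
    unfold clsum
    by_cases h : ∃ q ∈ (⊤ : Subgroup A), t = q * x * q⁻¹
    · rw [if_pos (hi.2 h), if_pos h]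
    · rw [if_neg (fun h' => h (hi.1 h')), if_neg h]
  have hp1 : p u = 1 := MonoidHom.mem_ker.1 hu
  let h : A → F := fun t => if p t = y then clsum F ⊤ x t else 0
  have hh : ∀ t, h (u * t) = h t := by
    intro t
    change (if p (u * t) = y then clsum F ⊤ x (u * t) else 0) = if p t = y then clsum F ⊤ x t else 0
    rw [map_mul, hp1, one_mul, hinv]
  have hinvR : ∀ (r : R) (t : A), h (r • t) = h t := by
    rintro ⟨r, hr⟩ t
    change h (r * t) = h t
    obtain ⟨n, rfl⟩ := Subgroup.mem_zpowers_iff.1 hr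
    obtain ⟨m, hm⟩ : ∃ m : ℕ, u ^ m = u ^ n := by
      have := mem_powers_iff_mem_zpowers.2 (Subgroup.mem_zpowers_iff.2 ⟨n, rfl⟩ :
        u ^ n ∈ Subgroup.zpowers u)
      exact this
    rw [← hm]
    clear hm
    induction m with
    | zero => rw [pow_zero, one_mul]
    | succ m ih => rw [pow_succ', mul_assoc, hh, ih]
  have key := H74.orb ℓ F F R A hF.prime hF.char hR h hinvR
  have h1 : H75.push p (clsum F ⊤ x) y = ∑ᶠ t, h t := by
    have := Fintype.ofFinite A
    rw [H75.push_eq, finsum_eq_sum_of_fintype]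
  rw [h1, key]
  apply finsum_eq_zero_of_forall_eq_zero
  intro t
  have hnot : t ∉ MulAction.fixedPoints R A := by
    intro ht
    apply hu1
    have h2 := (MulAction.mem_fixedPoints.1 ht) ⟨u, Subgroup.mem_zpowers u⟩
    have h3 : u * t = t := h2
    exact mul_eq_right.1 h3
  have h5 : (t ∈ MulAction.fixedPoints R A) = False := eq_false hnot
  simp only [h5, finsum_false]

/-- `O_ℓ(G / O_ℓ(G)) = 1` -/
theorem core_quot {ℓ : ℕ} [Fact ℓ.Prime] {p : A →* B} (hp : Function.Surjective p)
    (hk : p.ker = opCore ℓ A) : opCore ℓ B = ⊥ := by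
  have hkp : IsPGroup ℓ p.ker := by
    rw [hk]
    exact (opCore_spec ℓ A).2.1
  have h1 : ((opCore ℓ B).comap p) ≤ opCore ℓ A := by
    apply (opCore_spec ℓ A).2.2
    · have := (opCore_spec ℓ B).1
      exact this.comap p
    · exact (H75.isPGroup_comap_iff hp hkp _).2 (opCore_spec ℓ B).2.1
  rw [eq_bot_iff]
  intro y hy
  obtain ⟨x, rfl⟩ := hp y
  have h2 : x ∈ p.ker := by
    rw [hk]
    exact h1 hy
  rw [Subgroup.mem_bot]
  exact MonoidHom.mem_ker.1 h2

/-- the centraliser of the image -/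
theorem cent_map {p : A →* B} (hp : Function.Surjective p) {x : A}
    (hx : ∀ u ∈ p.ker, (∃ w : A, w * x * w⁻¹ = x * u) → u = 1) :
    Subgroup.centralizer ({p x} : Set B) = (Subgroup.centralizer ({x} : Set A)).map p := by
  apply le_antisymm
  · intro y hy
    obtain ⟨w, rfl⟩ := hp y
    rw [Subgroup.mem_centralizer_singleton_iff] at hy
    refine ⟨w, ?_, rfl⟩
    change w ∈ Subgroup.centralizer ({x} : Set A)
    rw [Subgroup.mem_centralizer_singleton_iff]
    have h1 : w * x * w⁻¹ = x * (x⁻¹ * (w * x * w⁻¹)) := by rw [mul_inv_cancel_left]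
    have h2 : x⁻¹ * (w * x * w⁻¹) ∈ p.ker := by
      rw [MonoidHom.mem_ker]
      simp only [map_mul, map_inv]
      rw [hy]
      group
    have h3 := hx _ h2 ⟨w, h1⟩
    rw [h3, mul_one] at h1
    exact mul_inv_eq_iff_eq_mul.1 h1
  · rintro _ ⟨w, hw, rfl⟩
    have hw' : w ∈ Subgroup.centralizer ({x} : Set A) := hw
    rw [Subgroup.mem_centralizer_singleton_iff] at hw' ⊢
    rw [← map_mul, hw', map_mul]

end grp

section res

variable {M : Ideal (integralClosure ℤ ℂ)} {A B : Type} [Group A] [Finite A] [Group B] [Finite B]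

theorem res_add [M.IsMaximal] {χ : A → ℂ} :
    letI := Ideal.Quotient.field M
    ∀ (a b : A → FF M), res M (a + b) χ = res M a χ + res M b χ := by
  let _ := Ideal.Quotient.field M
  intro a b
  unfold res
  rw [← finsum_add_distrib (Set.toFinite _) (Set.toFinite _)]
  apply finsum_congr
  intro K
  rw [Pi.add_apply, add_mul]

theorem isCl_iter {F : Type} [Field F] {a b : A → F} (ha : IsCl a) (hb : IsCl b) (n : ℕ) :
    IsCl ((mulF a)^[n] b) := by
  induction n with
  | zero => exact hb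
  | succ n ih =>
    rw [Function.iterate_succ_apply']
    exact H75.isCl_mulF ha ih

/-- the residues at a block of the quotient -/
theorem res_push [M.IsMaximal] {p : A →* B} (hp : Function.Surjective p) :
    letI := Ideal.Quotient.field M
    ∀ {χ : A → ℂ}, χ ∈ Irr A → ∀ {e : A → FF M}, IsBlk e → res M e χ = 1 →
      ∀ {f : B → FF M}, IsBlk f → mulF (H75.push p e) f = f → ∀ {ψ : B → ℂ}, ψ ∈ Irr B →
      res M f ψ = 1 → ∀ {a : A → FF M}, IsCl a → res M (H75.push p a) ψ = res M a χ := by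
  let _ := Ideal.Quotient.field M
  intro χ hχ e he he1 f hf hef ψ hψ hf1 a ha
  have hpe : IsCl (H75.push p e) := (H75.push_isIdem hp he.1).1
  have hpe1 : res M (H75.push p e) ψ = 1 := by
    have h1 := H75.res_mulF hψ hpe hf.1.1
    rw [hef, hf1, mul_one] at h1
    exact h1.symm
  set c : FF M := res M a χ with hc
  obtain ⟨hd, hd1⟩ := H75.res_dl (M := M) hχ (Subgroup.one_mem _) rfl
  obtain ⟨hd', hd1'⟩ := H75.res_dl (M := M) hψ (Subgroup.one_mem _) rfl
  set b : A → FF M := fun x => (-c) * dl (FF M) (1 : A) x with hb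
  have hbcl : IsCl b := by
    intro x y
    change -c * _ = -c * _
    rw [hd]
  have hab : IsCl (a + b) := by
    intro x y
    rw [Pi.add_apply, Pi.add_apply, ha, hbcl]
  have h0 : res M (a + b) χ = 0 := by
    rw [res_add, H75.res_smul, hd1, mul_one, ← hc, add_neg_cancel]
  obtain ⟨n, hn⟩ := H75.nilp hχ he he1 hab h0
  have h1 : (mulF (H75.push p (a + b)))^[n] (H75.push p e) = 0 := by
    rw [← H75.push_iterate, hn, H75.push_zero]
  have h2 : ∀ m : ℕ, res M ((mulF (H75.push p (a + b)))^[m] (H75.push p e)) ψ =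
      res M (H75.push p (a + b)) ψ ^ m := by
    intro m
    induction m with
    | zero => rw [Function.iterate_zero_apply, pow_zero, hpe1]
    | succ m ih =>
      rw [Function.iterate_succ_apply', H75.res_mulF hψ (H75.push_isCl hp hab)
        (isCl_iter (H75.push_isCl hp hab) hpe m), ih, pow_succ']
  have h3 := h2 n
  rw [h1, H75.res_zero] at h3
  have h4 : res M (H75.push p (a + b)) ψ = 0 := by
    by_contra h
    exact pow_ne_zero n h h3.symm
  have h5 : H75.push p b = fun y => (-c) * dl (FF M) (1 : B) y := by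
    rw [← H75.push_dl_one p]
    classical
    have := Fintype.ofFinite A
    funext y
    rw [H75.push_eq, H75.push_eq, Finset.mul_sum]
    apply Finset.sum_congr rfl
    intro t _
    rw [mul_ite, mul_zero]
  rw [H75.push_add, res_add, h5, H75.res_smul, hd1', mul_one] at h4
  exact add_neg_eq_zero.1 h4

end res

section main

variable {M : Ideal (integralClosure ℤ ℂ)} {A B : Type} [Group A] [Finite A] [Group B] [Finite B]

/-- divisibility of the alternating sum of an idempotent from the blocks -/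
theorem dvd_YY {ℓ : ℕ} {F : Type} [Field F] (hF : GoodF ℓ F) (Q : Subgroup B) (c : ℤ) {e : B → F}
    (he : IsIdem e) (h : ∀ f : B → F, IsBlk f → mulF e f = f → c ∣ YY ℓ Q f) : c ∣ YY ℓ Q e := by
  revert h
  refine H46.idem_induction (fun e => (∀ f : B → F, IsBlk f → mulF e f = f → c ∣ YY ℓ Q f) →
    c ∣ YY ℓ Q e) ?_ ?_ ?_ e he
  · intro _
    have h := H9.YY_add hF H94.nch H20.nls H20.brm H20.eig H20.ibf Q
      (H46.isIdem_zero (F := F) (H := B)) H46.isIdem_zero (H46.mulF_zero 0)
    rw [add_zero] at h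
    have h0 : YY ℓ Q (0 : B → F) = 0 := by linarith
    rw [h0]
    exact dvd_zero _
  · intro b hb h
    exact h b hb hb.1.2
  · intro e₁ e₂ h1 h2 h12 p1 p2 h
    have h21 : mulF e₂ e₁ = 0 := by rw [← H46.mulF_comm h1.1, h12]
    have hd : ∀ f : B → F, mulF (e₁ + e₂) f = mulF e₁ f + mulF e₂ f := by
      intro f
      apply ma_injective
      rw [ma_mul, ma_add, ma_add, ma_mul, ma_mul, add_mul]
    have hz : ∀ f : B → F, mulF (0 : B → F) f = 0 := by
      intro f
      apply ma_injective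
      rw [ma_mul, ma_zero, zero_mul]
    rw [H9.YY_add hF H94.nch H20.nls H20.brm H20.eig H20.ibf Q h1 h2 h12]
    apply dvd_add
    · apply p1
      intro f hf hfe
      apply h f hf
      rw [hd, hfe]
      have : mulF e₂ f = 0 := by rw [← hfe, ← mulF_assoc, h21, hz]
      rw [this, add_zero]
    · apply p2
      intro f hf hfe
      apply h f hf
      rw [hd, hfe]
      have : mulF e₁ f = 0 := by rw [← hfe, ← mulF_assoc, h12, hz]
      rw [this, zero_add]

/-- the alternating sum of a block, `O_ℓ = 1` -/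
theorem block_sum {ℓ : ℕ} (hℓ : ℓ.Prime) [M.IsMaximal] (hM : (ℓ : integralClosure ℤ ℂ) ∈ M)
    (hO : opCore ℓ B = ⊥) :
    letI := Ideal.Quotient.field M
    ∀ {f : B → FF M}, IsBlk f → ∃ χ ∈ Irr B, res M f χ = 1 ∧
      (Nat.card B : ℤ) * altSum ℓ M χ = YY ℓ ⊤ f := by
  let _ := Ideal.Quotient.field M
  intro f hf
  have hF : GoodF ℓ (FF M) := H50.fld ℓ hℓ M hM
  obtain ⟨χ, hχ, h1, h2⟩ := H75.blk_char H50.chp H50.bid hℓ hM hf
  have hker : (MonoidHom.id B).ker = opCore ℓ B := by
    rw [hO, MonoidHom.ker_id]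
  have hkp : IsPGroup ℓ (MonoidHom.id B).ker := by
    rw [MonoidHom.ker_id]
    exact IsPGroup.of_bot
  have hkc : (MonoidHom.id B).ker ≤ Subgroup.center B := by
    rw [MonoidHom.ker_id]
    exact bot_le
  have h3 := H75.altSum_central H20.nls H20.brm H63.smt H94.nch
    (H50.dic H20.ibn H20.nls H20.brm) hℓ M hM hF (p := MonoidHom.id B)
    Function.surjective_id hker hkp hkc χ hχ f hf h1 h2
  rw [MonoidHom.ker_id, Subgroup.card_bot, H75.push_id, Nat.cast_one, one_pow, one_mul] at h3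
  exact ⟨χ, hχ, h1, h3⟩

theorem isCl_clsum {F : Type} [Field F] (x : A) : IsCl (clsum F (⊤ : Subgroup A) x) := by
  intro z g
  have := congrFun (H75.clsum_inv (F := F) (Q := (⊤ : Subgroup A)) x g⁻¹ (Subgroup.mem_top _)) z
  rw [H75.cj, inv_inv] at this
  exact this

/-- MN2 -/
theorem mn2 (mn1 : Mn1Stmt) (dvr : DvrStmt) : Mn2Stmt := by
  intro ℓ _ M _ hM G _ _ hcen χ hχ x hx R hR hRC hRS A _ ρ hρ k hk
  let _ := Ideal.Quotient.field M
  have hℓ : ℓ.Prime := Fact.out
  have hF : GoodF ℓ (FF M) := H50.fld ℓ hℓ M hM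
  have hn := H75.opCore_normal (A := G) ℓ
  obtain ⟨e, he, h1, h2⟩ := H50.bid ℓ hℓ M hM G χ hχ
  set p : G →* G ⧸ opCore ℓ G := QuotientGroup.mk' (opCore ℓ G) with hp
  have hker : p.ker = opCore ℓ G := QuotientGroup.ker_mk' _
  have hsurj : Function.Surjective p := QuotientGroup.mk'_surjective (opCore ℓ G)
  have hkp : IsPGroup ℓ p.ker := by
    rw [hker]
    exact H75.opCore_isPGroup hℓ
  have hkc : p.ker ≤ Subgroup.center G := by
    rw [hker]
    exact hcen
  have heq := H75.altSum_central H20.nls H20.brm H63.smt H94.nch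
    (H50.dic H20.ibn H20.nls H20.brm) hℓ M hM hF hsurj hker hkp hkc χ hχ e he h1 h2
  have hOB : opCore ℓ (G ⧸ opCore ℓ G) = ⊥ := core_quot hsurj hker
  -- the order is a power of `ℓ`
  obtain ⟨n, hn'⟩ : ∃ n, orderOf (ρ ⟨x ^ k, hk⟩) = ℓ ^ n := by
    obtain ⟨j, hj⟩ := hR ⟨x ^ k, hk⟩
    have h3 : orderOf (ρ ⟨x ^ k, hk⟩) ∣ ℓ ^ j := by
      apply orderOf_dvd_of_pow_eq_one
      rw [← map_pow, hj, map_one]
    obtain ⟨n, _, hn'⟩ := (Nat.dvd_prime_pow hℓ).1 h3
    exact ⟨n, hn'⟩
  have hlab : labF M χ x ≠ 0 := by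
    intro h0
    apply hx
    have h3 : red M (omega (MonoidHom.id G) χ x) = red M 0 := by
      rw [red_zero]
      exact h0
    exact (red_eq_iff (omega_integral _ hχ x) isIntegral_zero).1 h3
  have main : ((Nat.card (G ⧸ opCore ℓ G) : ℤ) * ((ℓ ^ n : ℕ) : ℤ)) ∣
      YY ℓ (⊤ : Subgroup (G ⧸ opCore ℓ G)) (H75.push p e) := by
    apply dvd_YY hF _ _ (H75.push_isIdem hsurj he.1)
    intro f hf hef
    obtain ⟨ψ, hψ, hf1, hsum⟩ := block_sum hℓ hM hOB hf
    rw [← hsum]
    apply mul_dvd_mul_left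
    have h3 : res M (H75.push p (clsum (FF M) ⊤ x)) ψ = labF M χ x := by
      rw [res_push hsurj hχ he h1 hf hef hψ hf1 (isCl_clsum x), H75.res_clsum x]
    have hxu : ∀ u ∈ p.ker, (∃ w : G, w * x * w⁻¹ = x * u) → u = 1 := by
      intro u hu hw
      obtain ⟨w, hw⟩ := hw
      by_contra hu1
      rw [push_zero hF hkp hkc hu hu1 hw, H75.res_zero] at h3
      exact hlab h3.symm
    rw [push_clsum hsurj hxu, H75.res_clsum (p x)] at h3
    have hlab' : red M (omega (MonoidHom.id _) ψ (p x)) ≠ 0 := by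
      have h4 : labF M ψ (p x) ≠ 0 := by
        rw [h3]
        exact hlab
      exact h4
    apply mn1 ℓ M hM _ hOB ψ hψ (p x) hlab' n
    -- the Sylow subgroup of the centraliser in the quotient
    have hq : Function.Surjective (p.subgroupMap R) := p.subgroupMap_surjective R
    have hρker : (p.subgroupMap R).ker ≤ ρ.ker := by
      intro r hr
      rw [MonoidHom.mem_ker] at hr ⊢
      apply hρ
      have h4 : p (r : G) = 1 := congrArg Subtype.val hr
      rw [← hker]
      exact MonoidHom.mem_ker.2 h4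
    obtain ⟨ρ', hρ'⟩ : ∃ ρ' : (R.map p) →* A, ∀ r : R, ρ' (p.subgroupMap R r) = ρ r := by
      refine ⟨(p.subgroupMap R).liftOfSurjective hq ⟨ρ, hρker⟩, fun r => ?_⟩
      exact (p.subgroupMap R).liftOfRightInverse_comp_apply _ _ ⟨ρ, hρker⟩ r
    have hk' : (p x) ^ k ∈ R.map p := by
      rw [← map_pow]
      exact Subgroup.mem_map_of_mem p hk
    have h5 : ρ' ⟨(p x) ^ k, hk'⟩ = ρ ⟨x ^ k, hk⟩ := by
      rw [← hρ']
      congr 1
    have hcm := cent_map hsurj hxu
    have h6 := (dvr ℓ (G ⧸ opCore ℓ G) A (R.map p) (p x) ρ' (hR.map p) ?_ ?_ k hk').1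
    · rw [h5, hn'] at h6
      exact h6
    · rw [hcm]
      exact Subgroup.map_mono hRC
    · rw [hcm]
      intro hd
      apply hRS
      have h7 : (R.map p).relIndex ((Subgroup.centralizer ({x} : Set G)).map p) =
          ((R.map p).comap p).relIndex (Subgroup.centralizer ({x} : Set G)) :=
        (Subgroup.relIndex_comap _ _ _).symm
      rw [h7] at hd
      refine hd.trans ?_
      apply Subgroup.relIndex_dvd_of_le_left
      exact Subgroup.le_comap_map p R
  obtain ⟨s, hs⟩ := main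
  rw [hs] at heq
  have hcard : (Nat.card G : ℤ) = Nat.card (opCore ℓ G) * Nat.card (G ⧸ opCore ℓ G) := by
    rw [Subgroup.card_eq_card_quotient_mul_card_subgroup (opCore ℓ G)]
    push_cast
    ring
  rw [hker] at heq
  have hne : (Nat.card G : ℤ) ≠ 0 := by exact_mod_cast (Nat.card_pos (α := G)).ne'
  have hfin : altSum ℓ M χ = (Nat.card (opCore ℓ G) : ℤ) * (((ℓ ^ n : ℕ) : ℤ) * s) := by
    apply mul_left_cancel₀ hne
    rw [heq]
    rw [hcard]
    ring
  rw [hfin, hn']
  push_cast
  exact ⟨s, by ring⟩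

end main

end Pool.Agent.PP.ML.H9
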